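import Mathlib
import Pool.Agent.H818R2.Kiss4
import Pool.Agent.TH915.HC.Fin

/-!
Slow variation of the exponents of spherical codes and kissing numbers, and of general sequences
with increments tending to zero.
-/

set_option autoImplicit false

open Filter Set
open scoped Topology

namespace Pool.Agent.Q189.KS

open Pool.Agent.H818R2

/-- `B n` times the relative difference of the indices bounds the difference of the exponents -/
lemma growth {a : ℕ → ℝ} {C : ℝ} {N : ℕ} (h1 : ∀ n, N ≤ n → a n ≤ a (n + 1))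
    (h2 : ∀ n, N ≤ n → a (n + 1) ≤ C + a n) {n m : ℕ} (hn : N ≤ n) (hm : n ≤ m) :
    a n ≤ a m ∧ a m ≤ a n + C * ((m : ℝ) - n) := by
  induction m, hm using Nat.le_induction with
  | base => simp
  | succ k hk ih =>
    have e1 := h1 k (hn.trans hk)
    have e2 := h2 k (hn.trans hk)
    push_cast
    constructor <;> linarith [ih.1, ih.2]

/-- two-sided slow variation -/
lemma slow {u : ℕ → ℝ} {C K : ℝ} {N : ℕ} (hu0 : ∀ n, 0 ≤ u n) (huK : ∀ n, u n ≤ K)
    (h1 : ∀ n, N ≤ n → (n : ℝ) * u n ≤ ((n : ℝ) + 1) * u (n + 1))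
    (h2 : ∀ n, N ≤ n → ((n : ℝ) + 1) * u (n + 1) ≤ C + n * u n) {n m : ℕ} (hN : 1 ≤ N)
    (hn : N ≤ n) (hm : n ≤ m) :
    u n - u m ≤ K * (1 - n / m) ∧ u m - u n ≤ C * (1 - n / m) := by
  have hn0 : (0 : ℝ) < n := by exact_mod_cast (by omega : 0 < n)
  have hm0 : (0 : ℝ) < m := by exact_mod_cast (by omega : 0 < m)
  have hnm : (n : ℝ) ≤ m := by exact_mod_cast hm
  obtain ⟨g1, g2⟩ := growth (a := fun k => (k : ℝ) * u k) (C := C) (N := N)
    (fun k hk => by push_cast; exact h1 k hk) (fun k hk => by push_cast; exact h2 k hk) hn hm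
  have hq : 0 ≤ 1 - (n : ℝ) / m := by
    rw [sub_nonneg, div_le_one hm0]; exact hnm
  have e1 : u m ≥ (n / m) * u n := by
    rw [ge_iff_le, div_mul_eq_mul_div, div_le_iff₀ hm0]
    linarith
  have e2 : u m ≤ (n / m) * u n + C * (1 - n / m) := by
    have : (n / m : ℝ) * u n + C * (1 - n / m) = (n * u n + C * ((m : ℝ) - n)) / m := by
      field_simp
    rw [this, le_div_iff₀ hm0]
    linarith
  constructor
  · have : u n * (1 - n / m) ≤ K * (1 - n / m) := mul_le_mul_of_nonneg_right (huK n) hq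
    nlinarith
  · have : 0 ≤ u n * (1 - n / m) := mul_nonneg (hu0 n) hq
    nlinarith

/-- **blocks** -/
lemma blocks {u : ℕ → ℝ} {B : ℝ} {N : ℕ} (hB : 0 < B) (hN : 1 ≤ N)
    (hs : ∀ n m : ℕ, N ≤ n → n ≤ m → |u m - u n| ≤ B * (1 - n / m)) {x ε : ℝ} (hε : 0 < ε)
    (hx : ∃ᶠ n in atTop, |u n - x| < ε / 2) :
    ∃ᶠ n : ℕ in atTop, ∀ m : ℕ, n ≤ m → (m : ℝ) ≤ (1 + ε / (2 * B)) * n → |u m - x| < ε := by
  refine (hx.and_eventually (eventually_ge_atTop N)).mono ?_
  rintro n ⟨h1, hn⟩ m hm hm2
  have hn0 : (0 : ℝ) < n := by exact_mod_cast (by omega : 0 < n)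
  have hm0 : (0 : ℝ) < m := by exact_mod_cast (by omega : 0 < m)
  have h3 := hs n m hn hm
  have h4 : 1 - (n : ℝ) / m ≤ ε / (2 * B) := by
    rw [sub_le_iff_le_add, ← sub_le_iff_le_add', le_div_iff₀ hm0]
    have hd : 0 < ε / (2 * B) := by positivity
    have hnm : (n : ℝ) ≤ m := by exact_mod_cast hm
    have := mul_le_mul_of_nonneg_left hnm hd.le
    nlinarith
  have h5 : B * (1 - (n : ℝ) / m) ≤ ε / 2 := by
    calc B * (1 - (n : ℝ) / m) ≤ B * (ε / (2 * B)) := mul_le_mul_of_nonneg_left h4 hB.le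
      _ = ε / 2 := by field_simp
  calc |u m - x| = |(u m - u n) + (u n - x)| := by ring_nf
    _ ≤ |u m - u n| + |u n - x| := abs_add_le _ _
    _ < ε := by linarith

/-- **The limit set of a bounded sequence with increments tending to zero is connected.** -/
theorem isPreconnected_limitSet {X : Type*} [PseudoMetricSpace X] {S : Set X} (hS : IsCompact S)
    {u : ℕ → X} (hu : ∀ n, u n ∈ S) (hd : Tendsto (fun n => dist (u n) (u (n + 1))) atTop (𝓝 0)) :
    IsPreconnected {x | MapClusterPt x atTop u} := by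
  set L : Set X := {x | MapClusterPt x atTop u} with hL
  have hLcl : IsClosed L := isClosed_setOfPred_clusterPt
  rw [isPreconnected_closed_iff]
  intro A B hA hB hAB hLA hLB
  by_contra hne
  rw [not_nonempty_iff_eq_empty] at hne
  have hLS : ∀ x ∈ L, x ∈ closure S := by
    intro x hx
    rw [mem_closure_iff_clusterPt]
    exact ClusterPt.mono hx (by
      rw [le_principal_iff, mem_map]
      exact univ_mem' hu)
  have hScl : IsCompact (closure S) := hS.closure
  have hLc : IsCompact L := hScl.of_isClosed_subset hLcl hLS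
  have hAc : IsCompact (L ∩ A) := hLc.inter_right hA
  have hBc : IsCompact (L ∩ B) := hLc.inter_right hB
  have hdis : Disjoint (L ∩ A) (L ∩ B) := by
    rw [Set.disjoint_iff_inter_eq_empty, ← hne]
    ext x
    simp only [mem_inter_iff]
    tauto
  obtain ⟨δ, hδ, hdd⟩ := hdis.exists_thickenings hAc (hLcl.inter hB)
  set OA : Set X := Metric.thickening (δ / 2) (L ∩ A) with hOA
  set OB : Set X := Metric.thickening (δ / 2) (L ∩ B) with hOB
  have hOAo : IsOpen OA := Metric.isOpen_thickening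
  have hOBo : IsOpen OB := Metric.isOpen_thickening
  have hLO : L ⊆ OA ∪ OB := by
    intro x hx
    rcases hAB hx with h | h
    · exact Or.inl (Metric.self_subset_thickening (by positivity) _ ⟨hx, h⟩)
    · exact Or.inr (Metric.self_subset_thickening (by positivity) _ ⟨hx, h⟩)
  -- eventually in the union of the thickenings
  have hev : ∀ᶠ n in atTop, u n ∈ OA ∪ OB := by
    by_contra hcon
    have hfr : ∃ᶠ n in atTop, u n ∈ closure S ∩ (OA ∪ OB)ᶜ := by
      exact (not_eventually.1 hcon).mono fun n hn => ⟨subset_closure (hu n), hn⟩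
    obtain ⟨x, hx, hxc⟩ := (hScl.inter_right (hOAo.union hOBo).isClosed_compl).exists_mapClusterPt_of_frequently hfr
    exact hx.2 (hLO hxc)
  have hsm : ∀ᶠ n in atTop, dist (u n) (u (n + 1)) < δ / 2 :=
    hd.eventually (gt_mem_nhds (by positivity))
  obtain ⟨N, hN⟩ := (hev.and hsm).exists_forall_of_atTop
  obtain ⟨a, haL, haA⟩ := hLA
  obtain ⟨b, hbL, hbB⟩ := hLB
  have hfa : ∃ᶠ n in atTop, u n ∈ OA := by
    have h1 : OA ∈ 𝓝 a := hOAo.mem_nhds (Metric.self_subset_thickening (by positivity) _ ⟨haL, haA⟩)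
    exact (mapClusterPt_iff_frequently.1 haL) _ h1
  have hfb : ∃ᶠ n in atTop, u n ∈ OB := by
    have h1 : OB ∈ 𝓝 b := hOBo.mem_nhds (Metric.self_subset_thickening (by positivity) _ ⟨hbL, hbB⟩)
    exact (mapClusterPt_iff_frequently.1 hbL) _ h1
  obtain ⟨n₀, hn₀, hn₀N⟩ := (hfa.and_eventually (eventually_ge_atTop N)).exists
  have hstay : ∀ n, n₀ ≤ n → u n ∈ OA := by
    intro n hn
    induction n, hn using Nat.le_induction with
    | base => exact hn₀
    | succ k hk ih =>
      obtain ⟨z, hz, hzd⟩ := Metric.mem_thickening_iff.1 ih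
      have h3 := (hN k (hn₀N.trans hk)).2
      have h4 : u (k + 1) ∈ Metric.thickening δ (L ∩ A) := by
        rw [Metric.mem_thickening_iff]
        refine ⟨z, hz, ?_⟩
        have := dist_triangle (u (k + 1)) (u k) z
        rw [dist_comm (u (k + 1)) (u k)] at this
        linarith
      rcases (hN (k + 1) (by omega)).1 with h | h
      · exact h
      · exfalso
        exact (Set.disjoint_left.1 hdd h4) (Metric.thickening_mono (by linarith) _ h)
  obtain ⟨n₁, hn₁, hn₁N⟩ := (hfb.and_eventually (eventually_ge_atTop n₀)).exists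
  exact Set.disjoint_left.1 hdd (Metric.thickening_mono (by linarith) _ (hstay n₁ hn₁N))
    (Metric.thickening_mono (by linarith) _ hn₁)

/-- one-sided slow variation -/
lemma slowDec {u : ℕ → ℝ} {K : ℝ} (hK : 0 < K) (hu0 : ∀ n, 0 ≤ u n) (huK : ∀ n, u n ≤ K)
    (h1 : ∀ n : ℕ, 1 ≤ n → (n : ℝ) * u n ≤ ((n : ℝ) + 1) * u (n + 1)) :
    Pool.Agent.H160R3.Herm.SlowDec u (fun θ => K * θ) 0 K where
  lower := hu0
  upper := huK
  small := by
    intro ε hε
    refine ⟨ε / K, by positivity, fun θ _ h => ?_⟩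
    rw [lt_div_iff₀ hK] at h
    linarith
  step := by
    intro n m hn hm
    have hn0 : (0 : ℝ) < n := by exact_mod_cast hn
    have hm0 : (0 : ℝ) < m := by exact_mod_cast (by omega : 0 < m)
    have hnm : (n : ℝ) ≤ m := by exact_mod_cast hm
    have g : (n : ℝ) * u n ≤ m * u m := by
      induction m, hm using Nat.le_induction with
      | base => exact le_rfl
      | succ k hk ih =>
        have hk0 : (0 : ℝ) < k := by exact_mod_cast (by omega : 0 < k)
        have := h1 k (by omega)
        push_cast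
        exact (ih hk0 (by exact_mod_cast hk)).trans this
    have hq : 0 ≤ 1 - (n : ℝ) / m := by
      rw [sub_nonneg, div_le_one hm0]; exact hnm
    have e1 : (n / m) * u n ≤ u m := by
      rw [div_mul_eq_mul_div, div_le_iff₀ hm0]
      linarith
    have : u n * (1 - n / m) ≤ K * (1 - n / m) := mul_le_mul_of_nonneg_right (huK n) hq
    change u n - u m ≤ K * (1 - n / m)
    nlinarith

/-- the oscillation of the means -/
lemma osc_sq {u : ℕ → ℝ} {K : ℝ} (hK : 0 < K)
    (h : Pool.Agent.H160R3.Herm.SlowDec u (fun θ => K * θ) 0 K) :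
    (limsup u atTop - liminf u atTop) ^ 2 ≤
      16 * K * (limsup (Pool.Agent.TH915.HC.mean u) atTop -
        liminf (Pool.Agent.TH915.HC.mean u) atTop) := by
  have hm : 0 ≤ limsup (Pool.Agent.TH915.HC.mean u) atTop -
      liminf (Pool.Agent.TH915.HC.mean u) atTop :=
    sub_nonneg.2 (liminf_le_limsup (Pool.Agent.TH915.HC.bddU h) (Pool.Agent.TH915.HC.bddL h))
  have hle : liminf u atTop ≤ limsup u atTop := liminf_le_limsup (h.bddU _) (h.bddL _)
  have hU : limsup u atTop ≤ K :=
    limsup_le_of_le (h.bddL _).isCoboundedUnder_le (Eventually.of_forall h.upper)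
  have hL : 0 ≤ liminf u atTop :=
    le_liminf_of_le (h.bddU _).isCoboundedUnder_ge (Eventually.of_forall h.lower)
  set o := limsup u atTop - liminf u atTop with ho
  rcases eq_or_lt_of_le (show 0 ≤ o by linarith) with h0 | h0
  · rw [← h0]
    have := mul_nonneg (mul_nonneg (show (0 : ℝ) ≤ 16 by norm_num) hK.le) hm
    simpa using this
  have hδ0 : 0 < o / (4 * K) := by positivity
  have hδ1 : o / (4 * K) < 1 := by
    rw [div_lt_one (by positivity)]
    linarith
  have h2 := Pool.Agent.TH915.HC.osc_mean h hδ0 hδ1 (E := K * (o / (4 * K)))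
    (fun θ _ h1 => mul_le_mul_of_nonneg_left h1 hK.le)
  rw [← ho] at h2
  have h3 : o / (4 * K) * (o - 2 * (K * (o / (4 * K)))) = o ^ 2 / (8 * K) := by
    field_simp
    ring
  rw [h3, div_le_iff₀ (by positivity)] at h2
  nlinarith [mul_nonneg hδ0.le hm]

end Pool.Agent.Q189.KS
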